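import Mathlib
import Pool.Agent.Lib.MP_6db618_an.Ends

set_option autoImplicit false

namespace Pool.Agent.Lib.MP_6db618_an.Old.AdjacentExponents

/-- Blumenthal's conjecture for complex polynomials `p`, `q` when the two lowest exponents of `p`,
or its two highest exponents, are consecutive integers (no assumption on `q`). -/
theorem result (p q : Polynomial ℂ)
    (hadj : p.coeff (p.natTrailingDegree + 1) ≠ 0 ∨ p.coeff (p.natDegree - 1) ≠ 0)
    (hM : ∀ r : ℝ, 0 < r →
      sSup ((fun z => ‖p.eval z‖) '' Metric.sphere (0 : ℂ) r) =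
        sSup ((fun z => ‖q.eval z‖) '' Metric.sphere (0 : ℂ) r)) :
    ∃ ε η : ℂ, ‖ε‖ = 1 ∧ ‖η‖ = 1 ∧
      ((∀ z : ℂ, q.eval z = ε * p.eval (η * z)) ∨
        (∀ z : ℂ, q.eval z = ε * starRingEnd ℂ (p.eval (η * starRingEnd ℂ z)))) := by
  refine Pool.Agent.Lib.MP_6db618_an.equiv_of_adjacent (r0 := 1) one_pos ?_
  rcases hadj with h | h
  · exact Or.inl ⟨h, fun r hr _ => hM r hr⟩
  · exact Or.inr ⟨h, fun r hr => hM r (one_pos.trans hr)⟩

end Pool.Agent.Lib.MP_6db618_an.Old.AdjacentExponents
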