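import Mathlib
import Pool.Agent.Lib.MP_6db618_an.Ultra

set_option autoImplicit false

namespace Pool.Agent.Lib.MP_6db618_an.Old.SimpleZeros

/-- Blumenthal's conjecture for complex polynomials `p`, `q` when every non-zero root of `p` is
simple (no assumption on `q`); equality of the maximum moduli for small radii already suffices. -/
theorem result (p q : Polynomial ℂ)
    (hsimple : ∀ w : ℂ, w ≠ 0 → p.rootMultiplicity w ≤ 1)
    (r₀ : ℝ) (hr₀ : 0 < r₀)
    (hM : ∀ r : ℝ, 0 < r → r < r₀ →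
      sSup ((fun z => ‖p.eval z‖) '' Metric.sphere (0 : ℂ) r) =
        sSup ((fun z => ‖q.eval z‖) '' Metric.sphere (0 : ℂ) r)) :
    ∃ ε η : ℂ, ‖ε‖ = 1 ∧ ‖η‖ = 1 ∧
      ((∀ z : ℂ, q.eval z = ε * p.eval (η * z)) ∨
        (∀ z : ℂ, q.eval z = ε * starRingEnd ℂ (p.eval (η * starRingEnd ℂ z)))) := by
  refine Pool.Agent.Lib.MP_6db618_an.equiv_of_simple (fun w hw => ?_) hr₀ hM
  rw [Polynomial.count_roots]
  exact hsimple w hw

end Pool.Agent.Lib.MP_6db618_an.Old.SimpleZeros
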