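import Mathlib
import Pool.Agent.Lib.MP_6db618_an.Ends

set_option autoImplicit false

namespace Pool.Agent.Lib.MP_6db618_an.Old.TopExponents

/-- Blumenthal's conjecture for complex polynomials `p`, `q` when the two highest exponents of `p`
are consecutive integers (no assumption on `q`); equality of the maximum moduli for large radii
already suffices. -/
theorem result (p q : Polynomial ℂ) (htop : p.coeff (p.natDegree - 1) ≠ 0)
    (r₀ : ℝ) (hr₀ : 0 < r₀)
    (hM : ∀ r : ℝ, r₀ < r →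
      sSup ((fun z => ‖p.eval z‖) '' Metric.sphere (0 : ℂ) r) =
        sSup ((fun z => ‖q.eval z‖) '' Metric.sphere (0 : ℂ) r)) :
    ∃ ε η : ℂ, ‖ε‖ = 1 ∧ ‖η‖ = 1 ∧
      ((∀ z : ℂ, q.eval z = ε * p.eval (η * z)) ∨
        (∀ z : ℂ, q.eval z = ε * starRingEnd ℂ (p.eval (η * starRingEnd ℂ z)))) :=
  Pool.Agent.Lib.MP_6db618_an.equiv_of_adjacent hr₀ (Or.inr ⟨htop, hM⟩)

end Pool.Agent.Lib.MP_6db618_an.Old.TopExponents
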